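import Pool.Agent.Helper53.CTR.Goals

/-!
# CTR-DBD: bounds for the depths
-/

namespace Pool.Agent.Helper9.CTR

open Pool.Agent.Helper53.CTR Finset
open Pool.Agent.Helper1.TE (cif)

/-- Bounds of the depth of `x` in the register `j`. -/
def PB (q : ℕ) (x : De) (n j : ℕ) (lo hi : ℤ) : Prop :=
  ∀ τ < 9 ^ n, lo ≤ dep q x n τ j ∧ dep q x n τ j ≤ hi

theorem sub_el (q : ℕ) (x : De) (n d : ℕ) (hk : x.k ≠ 0) : sub q x n d = cif d x idle := by
  simp [sub, cif, hk]

theorem dep_el (q j : ℕ) : ∀ (n : ℕ) (x : De) (τ : ℕ), x.k ≠ 0 → τ < 9 ^ n →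
    dep q x n τ j = 0 ∨ dep q x n τ j = eff x j := by
  intro n
  induction n with
  | zero => intro x τ _ _; left; rfl
  | succ n ih =>
    intro x τ hk hτ
    have h9 : 0 < 9 ^ n := by positivity
    have hm : τ % 9 ^ n < 9 ^ n := Nat.mod_lt _ h9
    have e0 : ∀ d, eff (sub q x n (d + 1)) j = 0 := by
      intro d; rw [sub_el q x n _ hk]; simp [cif, idle, eff, De.T]
    have e1 : eff (sub q x n 0) j = eff x j := by
      rw [sub_el q x n _ hk]; simp [cif]
    show ((∑ d ∈ range (τ / 9 ^ n), eff (sub q x n d) j) +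
      dep q (sub q x n (τ / 9 ^ n)) n (τ % 9 ^ n) j) = 0 ∨
      ((∑ d ∈ range (τ / 9 ^ n), eff (sub q x n d) j) +
      dep q (sub q x n (τ / 9 ^ n)) n (τ % 9 ^ n) j) = eff x j
    cases hd : τ / 9 ^ n with
    | zero =>
      have := ih x (τ % 9 ^ n) hk hm
      rw [sub_el q x n _ hk]
      simpa [cif] using this
    | succ d =>
      have hid : idle.k ≠ 0 := by simp [idle, De.k]
      have h2 := ih idle (τ % 9 ^ n) hid hm
      have h3 : eff idle j = 0 := by simp [idle, eff, De.T]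
      rw [h3, or_self] at h2
      have h4 : sub q x n (d + 1) = idle := by rw [sub_el q x n _ hk]; simp [cif]
      rw [h4, h2, Finset.sum_range_succ', e1, Finset.sum_eq_zero (fun i _ => e0 i)]
      right; ring

theorem PB_el (q : ℕ) (x : De) (n j : ℕ) (hk : x.k ≠ 0) :
    PB q x n j (min 0 (eff x j)) (max 0 (eff x j)) := by
  intro τ hτ
  rcases dep_el q j n x τ hk hτ with h | h <;> rw [h] <;> simp

theorem PB_step (q : ℕ) (x : De) (n j : ℕ) (lo hi : ℤ) (l u : ℕ → ℤ)
    (hs : ∀ d < 9, PB q (sub q x n d) n j (l d) (u d))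
    (h : ∀ D < 9, lo ≤ (∑ d ∈ range D, eff (sub q x n d) j) + l D ∧
      (∑ d ∈ range D, eff (sub q x n d) j) + u D ≤ hi) : PB q x (n + 1) j lo hi := by
  intro τ hτ
  have h9 : 0 < 9 ^ n := by positivity
  have hD : τ / 9 ^ n < 9 := by
    rw [Nat.div_lt_iff_lt_mul h9]; rw [pow_succ] at hτ; linarith [hτ, mul_comm (9 ^ n) 9]
  have h1 := hs _ hD (τ % 9 ^ n) (Nat.mod_lt _ h9)
  have h2 := h _ hD
  show lo ≤ ((∑ d ∈ range (τ / 9 ^ n), eff (sub q x n d) j) +
      dep q (sub q x n (τ / 9 ^ n)) n (τ % 9 ^ n) j) ∧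
      ((∑ d ∈ range (τ / 9 ^ n), eff (sub q x n d) j) +
      dep q (sub q x n (τ / 9 ^ n)) n (τ % 9 ^ n) j) ≤ hi
  constructor <;> linarith [h1.1, h1.2, h2.1, h2.2]

theorem PB_mono {q : ℕ} {x : De} {n j : ℕ} {lo hi lo' hi' : ℤ} (h : PB q x n j lo hi)
    (h1 : lo' ≤ lo) (h2 : hi ≤ hi') : PB q x n j lo' hi' :=
  fun τ hτ => ⟨h1.trans (h τ hτ).1, (h τ hτ).2.trans h2⟩

theorem sub_B (q v i T m d : ℕ) :
    sub q (nod v i T) ((q + 2) * m) d = phB q (m % 2) v i T d := by
  have h1 : (q + 2) * m % (q + 2) = 0 := Nat.mul_mod_right _ _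
  have h2 : (q + 2) * m / (q + 2) = m := Nat.mul_div_cancel_left _ (by omega)
  have h3 : q + 1 - 0 ≠ 0 := by omega
  simp only [sub, h1, h2]
  simp [cif, nod, De.k, De.v, De.i, De.T]

theorem sub_K (q v i T m u d : ℕ) (hu : u < q) :
    sub q (nod v i T) ((q + 2) * m + (u + 1)) d = phK (2 * (q - (u + 1))) v i T d := by
  have h1 : ((q + 2) * m + (u + 1)) % (q + 2) = u + 1 := by
    rw [Nat.mul_add_mod]; exact Nat.mod_eq_of_lt (by omega)
  have h3 : q + 1 - (u + 1) ≠ 0 := by omega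
  simp only [sub, h1]
  simp [cif, nod, De.k, De.v, De.i, De.T]
  omega

theorem sub_V (q v i T m d : ℕ) :
    sub q (nod v i T) ((q + 2) * m + (q + 1)) d = phV v i T d := by
  have h1 : ((q + 2) * m + (q + 1)) % (q + 2) = q + 1 := by
    rw [Nat.mul_add_mod]; exact Nat.mod_eq_of_lt (by omega)
  simp only [sub, h1]
  simp [cif, nod, De.k, De.v, De.i, De.T]

/-- Claim V. -/
def CV (q m : ℕ) : Prop := ∀ v T j : ℕ, T ≤ 2 →
  PB q (nod v (2 * q + 1 + m % 2) T) ((q + 2) * m) j
    (-(if j = 2 * q + 1 + m % 2 ∧ T = 2 then 1 else 0)) (m + 1)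

/-- Claim K. -/
def CK (q m u : ℕ) : Prop := ∀ v T i j : ℕ, T ≤ 2 →
  (i < 2 * (q - u) ∨ i = 2 * q + 1 + (m + 1) % 2) →
  PB q (nod v i T) ((q + 2) * m + (u + 1)) j
    (-(if j = i ∧ T = 2 then 1 else 0))
    (if j = i then m + 1 + (if T = 1 then 1 else 0)
      else if j ≤ 2 * (q - u) ∨ j = 2 * q + 1 + (m + 1) % 2 then m + 1 else m + 2)

theorem PB_step' {q : ℕ} {x : De} {n j : ℕ} {lo hi : ℤ} (y : ℕ → De)
    (hy : ∀ d, sub q x n d = y d)
    (h : ∀ D < 9, ∃ l u : ℤ, PB q (y D) n j l u ∧ lo ≤ (∑ d ∈ range D, eff (y d) j) + l ∧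
      (∑ d ∈ range D, eff (y d) j) + u ≤ hi) : PB q x (n + 1) j lo hi := by
  choose! l u h1 h2 h3 using h
  refine PB_step q x n j lo hi l u (fun d hd => ?_) (fun D hD => ?_)
  · rw [hy]; exact h1 d hd
  · simp only [hy]; exact ⟨h2 D hD, h3 D hD⟩

theorem K0 (q m : ℕ) (h : CV q m) : CK q m 0 := by
  intro v T i j hT hi
  have hp : m % 2 < 2 := Nat.mod_lt _ (by norm_num)
  refine PB_step' (phB q (m % 2) v i T) (sub_B q v i T m) ?_
  intro D hD
  have hV1 := h (2 * v) 1 j (by norm_num)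
  have hV2 := h (2 * v) 2 j (by norm_num)
  interval_cases D
  · refine ⟨_, _, PB_el q _ _ j (by simp [phB, cif, De.k]), ?_, ?_⟩ <;>
    simp only [Finset.sum_range_succ, Finset.sum_range_zero, phB, phK, phV, cif, eff, De.i, De.T,
      nod, idle] <;> norm_num <;> split_ifs <;> omega
  · refine ⟨_, _, hV1, ?_, ?_⟩ <;>
    simp only [Finset.sum_range_succ, Finset.sum_range_zero, phB, phK, phV, cif, eff, De.i, De.T,
      nod, idle] <;> norm_num <;> split_ifs <;> omega
  · refine ⟨_, _, PB_el q _ _ j (by simp [phB, cif, De.k]), ?_, ?_⟩ <;>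
    simp only [Finset.sum_range_succ, Finset.sum_range_zero, phB, phK, phV, cif, eff, De.i, De.T,
      nod, idle] <;> norm_num <;> split_ifs <;> omega
  · refine ⟨_, _, hV2, ?_, ?_⟩ <;>
    simp only [Finset.sum_range_succ, Finset.sum_range_zero, phB, phK, phV, cif, eff, De.i, De.T,
      nod, idle] <;> norm_num <;> split_ifs <;> omega
  · refine ⟨_, _, PB_el q _ _ j (by simp [phB, cif, De.k]), ?_, ?_⟩ <;>
    simp only [Finset.sum_range_succ, Finset.sum_range_zero, phB, phK, phV, cif, eff, De.i, De.T,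
      nod, idle] <;> norm_num <;> split_ifs <;> omega
  · refine ⟨_, _, PB_el q _ _ j (by simp [phB, cif, De.k, idle]), ?_, ?_⟩ <;>
    simp only [Finset.sum_range_succ, Finset.sum_range_zero, phB, phK, phV, cif, eff, De.i, De.T,
      nod, idle] <;> norm_num <;> split_ifs <;> omega
  · refine ⟨_, _, PB_el q _ _ j (by simp [phB, cif, De.k, idle]), ?_, ?_⟩ <;>
    simp only [Finset.sum_range_succ, Finset.sum_range_zero, phB, phK, phV, cif, eff, De.i, De.T,
      nod, idle] <;> norm_num <;> split_ifs <;> omega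
  · refine ⟨_, _, PB_el q _ _ j (by simp [phB, cif, De.k, idle]), ?_, ?_⟩ <;>
    simp only [Finset.sum_range_succ, Finset.sum_range_zero, phB, phK, phV, cif, eff, De.i, De.T,
      nod, idle] <;> norm_num <;> split_ifs <;> omega
  · refine ⟨_, _, PB_el q _ _ j (by simp [phB, cif, De.k, idle]), ?_, ?_⟩ <;>
    simp only [Finset.sum_range_succ, Finset.sum_range_zero, phB, phK, phV, cif, eff, De.i, De.T,
      nod, idle] <;> norm_num <;> split_ifs <;> omega

theorem KS (q m u : ℕ) (hu : u < q) (h : CK q m u) : CK q m (u + 1) := by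
  intro v T i j hT hi
  have hp : (m + 1) % 2 < 2 := Nat.mod_lt _ (by norm_num)
  obtain ⟨e, he⟩ : ∃ e, e = 2 * (q - (u + 1)) := ⟨_, rfl⟩
  have he2 : 2 * (q - u) = e + 2 := by omega
  have heq : e + 2 ≤ 2 * q := by omega
  refine PB_step' (phK e v i T) (by rw [he]; exact fun d => sub_K q v i T m u d hu) ?_
  intro D hD
  have h1 := h (2 * v) 1 (e + 1) j (by norm_num) (by omega)
  have h2 := h (2 * v) 2 (e + 1) j (by norm_num) (by omega)
  have h3 := h (2 * v + 1) T i j hT (by omega)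
  rw [he2] at h1 h2 h3
  rw [← he] at hi ⊢
  interval_cases D
  · refine ⟨_, _, PB_el q _ _ j (by simp [phK, cif, De.k]), ?_, ?_⟩ <;>
    simp only [Finset.sum_range_succ, Finset.sum_range_zero, phB, phK, phV, cif, eff, De.i, De.T,
      nod, idle] <;> norm_num <;> split_ifs <;> omega
  · refine ⟨_, _, h1, ?_, ?_⟩ <;>
    simp only [Finset.sum_range_succ, Finset.sum_range_zero, phB, phK, phV, cif, eff, De.i, De.T,
      nod, idle] <;> norm_num <;> split_ifs <;> omega
  · refine ⟨_, _, PB_el q _ _ j (by simp [phK, cif, De.k]), ?_, ?_⟩ <;>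
    simp only [Finset.sum_range_succ, Finset.sum_range_zero, phB, phK, phV, cif, eff, De.i, De.T,
      nod, idle] <;> norm_num <;> split_ifs <;> omega
  · refine ⟨_, _, PB_el q _ _ j (by simp [phK, cif, De.k]), ?_, ?_⟩ <;>
    simp only [Finset.sum_range_succ, Finset.sum_range_zero, phB, phK, phV, cif, eff, De.i, De.T,
      nod, idle] <;> norm_num <;> split_ifs <;> omega
  · refine ⟨_, _, h3, ?_, ?_⟩ <;>
    simp only [Finset.sum_range_succ, Finset.sum_range_zero, phB, phK, phV, cif, eff, De.i, De.T,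
      nod, idle] <;> norm_num <;> split_ifs <;> omega
  · refine ⟨_, _, PB_el q _ _ j (by simp [phK, cif, De.k]), ?_, ?_⟩ <;>
    simp only [Finset.sum_range_succ, Finset.sum_range_zero, phB, phK, phV, cif, eff, De.i, De.T,
      nod, idle] <;> norm_num <;> split_ifs <;> omega
  · refine ⟨_, _, PB_el q _ _ j (by simp [phK, cif, De.k]), ?_, ?_⟩ <;>
    simp only [Finset.sum_range_succ, Finset.sum_range_zero, phB, phK, phV, cif, eff, De.i, De.T,
      nod, idle] <;> norm_num <;> split_ifs <;> omega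
  · refine ⟨_, _, h2, ?_, ?_⟩ <;>
    simp only [Finset.sum_range_succ, Finset.sum_range_zero, phB, phK, phV, cif, eff, De.i, De.T,
      nod, idle] <;> norm_num <;> split_ifs <;> omega
  · refine ⟨_, _, PB_el q _ _ j (by simp [phK, cif, De.k]), ?_, ?_⟩ <;>
    simp only [Finset.sum_range_succ, Finset.sum_range_zero, phB, phK, phV, cif, eff, De.i, De.T,
      nod, idle] <;> norm_num <;> split_ifs <;> omega

theorem VS (q m : ℕ) (h : CK q m q) : CV q (m + 1) := by
  intro v T j hT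
  have hp : (m + 1) % 2 < 2 := Nat.mod_lt _ (by norm_num)
  have h1 := h v T (2 * q + 1 + (m + 1) % 2) j hT (Or.inr rfl)
  rw [Nat.sub_self, Nat.mul_zero] at h1
  have hn : (q + 2) * (m + 1) = (q + 2) * m + (q + 1) + 1 := by ring
  rw [hn]
  push_cast
  refine PB_step' (phV v (2 * q + 1 + (m + 1) % 2) T)
    (sub_V q v (2 * q + 1 + (m + 1) % 2) T m) ?_
  intro D hD
  interval_cases D
  · refine ⟨_, _, PB_el q _ _ j (by simp [phV, cif, De.k]), ?_, ?_⟩ <;>
    simp only [Finset.sum_range_succ, Finset.sum_range_zero, phB, phK, phV, cif, eff, De.i, De.T,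
      nod, idle] <;> norm_num <;> split_ifs <;> omega
  · refine ⟨_, _, h1, ?_, ?_⟩ <;>
    simp only [Finset.sum_range_succ, Finset.sum_range_zero, phB, phK, phV, cif, eff, De.i, De.T,
      nod, idle] <;> norm_num <;> split_ifs <;> omega
  · refine ⟨_, _, PB_el q _ _ j (by simp [phV, cif, De.k]), ?_, ?_⟩ <;>
    simp only [Finset.sum_range_succ, Finset.sum_range_zero, phB, phK, phV, cif, eff, De.i, De.T,
      nod, idle] <;> norm_num <;> split_ifs <;> omega
  · refine ⟨_, _, PB_el q _ _ j (by simp [phV, cif, De.k, idle]), ?_, ?_⟩ <;>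
    simp only [Finset.sum_range_succ, Finset.sum_range_zero, phB, phK, phV, cif, eff, De.i, De.T,
      nod, idle] <;> norm_num <;> split_ifs <;> omega
  · refine ⟨_, _, PB_el q _ _ j (by simp [phV, cif, De.k, idle]), ?_, ?_⟩ <;>
    simp only [Finset.sum_range_succ, Finset.sum_range_zero, phB, phK, phV, cif, eff, De.i, De.T,
      nod, idle] <;> norm_num <;> split_ifs <;> omega
  · refine ⟨_, _, PB_el q _ _ j (by simp [phV, cif, De.k, idle]), ?_, ?_⟩ <;>
    simp only [Finset.sum_range_succ, Finset.sum_range_zero, phB, phK, phV, cif, eff, De.i, De.T,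
      nod, idle] <;> norm_num <;> split_ifs <;> omega
  · refine ⟨_, _, PB_el q _ _ j (by simp [phV, cif, De.k, idle]), ?_, ?_⟩ <;>
    simp only [Finset.sum_range_succ, Finset.sum_range_zero, phB, phK, phV, cif, eff, De.i, De.T,
      nod, idle] <;> norm_num <;> split_ifs <;> omega
  · refine ⟨_, _, PB_el q _ _ j (by simp [phV, cif, De.k, idle]), ?_, ?_⟩ <;>
    simp only [Finset.sum_range_succ, Finset.sum_range_zero, phB, phK, phV, cif, eff, De.i, De.T,
      nod, idle] <;> norm_num <;> split_ifs <;> omega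
  · refine ⟨_, _, PB_el q _ _ j (by simp [phV, cif, De.k, idle]), ?_, ?_⟩ <;>
    simp only [Finset.sum_range_succ, Finset.sum_range_zero, phB, phK, phV, cif, eff, De.i, De.T,
      nod, idle] <;> norm_num <;> split_ifs <;> omega

theorem V0 (q : ℕ) : CV q 0 := by
  intro v T j hT τ hτ
  have hd : dep q (nod v (2 * q + 1 + 0 % 2) T) ((q + 2) * 0) τ j = 0 := rfl
  rw [hd]
  constructor
  · split_ifs <;> norm_num
  · norm_num

theorem V_all (q : ℕ) : ∀ m, CV q m := by
  intro m
  induction m with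
  | zero => exact V0 q
  | succ m ih =>
    refine VS q m ?_
    have key : ∀ u, u ≤ q → CK q m u := by
      intro u
      induction u with
      | zero => intro _; exact K0 q m ih
      | succ u ihu => intro hu; exact KS q m u (by omega) (ihu (by omega))
    exact key q le_rfl

theorem gDBD : GoalDBD := by
  intro q h τ j hτ
  have hN : Nt h q = (q + 2) * h := by unfold Nt; ring
  rw [hN] at hτ ⊢
  have := V_all q h 1 0 j (by norm_num) τ hτ
  simpa [root] using this

end Pool.Agent.Helper9.CTR
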